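import Mathlib

/-!
# Non-negativity of the Taylor coefficients of `exp (-x/(r+1)) * B_r(x)`
-/

namespace Pool.Agent.Results.MP_cd30d4_co.NonnegCoeff

open Finset

/-- `B_r(x) = exp x - ∑_{k<r} x^k / k!`. -/
noncomputable def B (r : ℕ) (x : ℝ) : ℝ := Real.exp x - ∑ k ∈ range r, x ^ k / (k.factorial : ℝ)

/-- `G_r(x) = exp (-x/(r+1)) * B_r(x)`. -/
noncomputable def G (r : ℕ) (x : ℝ) : ℝ := Real.exp (-x / ((r : ℝ) + 1)) * B r x

/-- The sum `∑_{k = r}^{n} C(n,k) (-a)^(n-k)`. -/
noncomputable def e (a : ℝ) (r n : ℕ) : ℝ :=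
  ∑ k ∈ range (n + 1), if r ≤ k then (n.choose k : ℝ) * (-a) ^ (n - k) else 0

lemma e_succ (a : ℝ) (r n : ℕ) (hr : 1 ≤ r) (hn : r ≤ n + 1) :
    e a r (n + 1) = (1 - a) * e a r n + (n.choose (r - 1) : ℝ) * (-a) ^ (n + 1 - r) := by
  obtain ⟨s, rfl⟩ : ∃ s, r = s + 1 := ⟨r - 1, by omega⟩
  have hs : s ≤ n := by omega
  -- Pascal's rule
  have h1 : e a (s + 1) (n + 1) =
      (∑ k ∈ range (n + 1), if s ≤ k then (n.choose k : ℝ) * (-a) ^ (n - k) else 0)
      + ∑ k ∈ range (n + 1), if s + 1 ≤ k then (n.choose k : ℝ) * (-a) ^ (n + 1 - k) else 0 := by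
    unfold e
    rw [Finset.sum_range_succ']
    have h0 : ¬ (s + 1 ≤ 0) := by omega
    rw [if_neg h0, add_zero]
    have h2 : (∑ k ∈ range (n + 1), if s + 1 ≤ k then (n.choose k : ℝ) * (-a) ^ (n + 1 - k) else 0)
        = ∑ k ∈ range (n + 1), if s + 1 ≤ k + 1 then
            (n.choose (k + 1) : ℝ) * (-a) ^ (n + 1 - (k + 1)) else 0 := by
      have h3 : (∑ k ∈ range (n + 2), if s + 1 ≤ k then
          (n.choose k : ℝ) * (-a) ^ (n + 1 - k) else 0) = _ := Finset.sum_range_succ' _ _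
      rw [if_neg h0, add_zero] at h3
      rw [← h3, Finset.sum_range_succ _ (n + 1)]
      simp
    rw [h2, ← Finset.sum_add_distrib]
    refine Finset.sum_congr rfl fun k hk => ?_
    by_cases hk' : s ≤ k
    · have hk3 : s + 1 ≤ k + 1 := by omega
      rw [if_pos hk3, if_pos hk', if_pos hk3, Nat.choose_succ_succ, Nat.add_sub_add_right]
      push_cast
      ring
    · have hk3 : ¬ (s + 1 ≤ k + 1) := by omega
      rw [if_neg hk3, if_neg hk', if_neg hk3, zero_add]
  have h4 : (∑ k ∈ range (n + 1), if s + 1 ≤ k then (n.choose k : ℝ) * (-a) ^ (n + 1 - k) else 0)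
      = -a * e a (s + 1) n := by
    unfold e
    rw [Finset.mul_sum]
    refine Finset.sum_congr rfl fun k hk => ?_
    have hk2 : k ≤ n := by
      have := Finset.mem_range.mp hk
      omega
    by_cases hk' : s + 1 ≤ k
    · rw [if_pos hk', if_pos hk', Nat.succ_sub hk2, pow_succ]
      ring
    · rw [if_neg hk', if_neg hk', mul_zero]
  have h5 : (∑ k ∈ range (n + 1), if s ≤ k then (n.choose k : ℝ) * (-a) ^ (n - k) else 0)
      = e a (s + 1) n + (n.choose s : ℝ) * (-a) ^ (n - s) := by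
    unfold e
    have : ∀ k ∈ range (n + 1), (if s ≤ k then (n.choose k : ℝ) * (-a) ^ (n - k) else 0)
        = (if s + 1 ≤ k then (n.choose k : ℝ) * (-a) ^ (n - k) else 0)
          + (if k = s then (n.choose s : ℝ) * (-a) ^ (n - s) else 0) := by
      intro k _
      rcases lt_trichotomy k s with h | h | h
      · rw [if_neg (by omega), if_neg (by omega), if_neg (by omega), add_zero]
      · subst h
        simp
      · rw [if_pos (by omega), if_pos (by omega), if_neg (by omega), add_zero]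
    rw [Finset.sum_congr rfl this, Finset.sum_add_distrib, Finset.sum_ite_eq', if_pos]
    exact Finset.mem_range.mpr (by omega)
  rw [h1, h4, h5]
  have h6 : n + 1 - (s + 1) = n - s := by omega
  have h7 : s + 1 - 1 = s := by omega
  rw [h6, h7]
  ring

lemma e_self (a : ℝ) (r : ℕ) : e a r r = 1 := by
  unfold e
  rw [Finset.sum_range_succ]
  have : ∑ k ∈ range r, (if r ≤ k then (r.choose k : ℝ) * (-a) ^ (r - k) else 0) = 0 := by
    refine Finset.sum_eq_zero fun k hk => ?_
    have := Finset.mem_range.mp hk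
    rw [if_neg (by omega)]
  rw [this]
  simp

lemma e_lt (a : ℝ) (r n : ℕ) (h : n < r) : e a r n = 0 := by
  unfold e
  refine Finset.sum_eq_zero fun k hk => ?_
  have := Finset.mem_range.mp hk
  rw [if_neg (by omega)]

/-- The auxiliary sequence `T_j = C(r-1+j, r-1) a^j`. -/
noncomputable def T (a : ℝ) (r j : ℕ) : ℝ := ((r - 1 + j).choose (r - 1) : ℝ) * a ^ j

lemma T_succ (r j : ℕ) (hr : 1 ≤ r) :
    T (1 / ((r : ℝ) + 1)) r (j + 1) ≤ (1 - 1 / ((r : ℝ) + 1)) * T (1 / ((r : ℝ) + 1)) r j := by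
  obtain ⟨s, rfl⟩ : ∃ s, r = s + 1 := ⟨r - 1, by omega⟩
  unfold T
  simp only [Nat.add_sub_cancel]
  have hpos : (0 : ℝ) < ((s + 1 : ℕ) : ℝ) + 1 := by positivity
  have h1 : ((s + (j + 1)).choose s : ℝ) * (j + 1) = ((s + j).choose s : ℝ) * (s + j + 1) := by
    have h := Nat.add_one_mul_choose_eq (s + j) j
    -- (s+j+1) * C(s+j, j) = C(s+j+1, j+1) * (j+1)
    have e1 : (s + j).choose j = (s + j).choose s := by
      rw [← Nat.choose_symm_add]
    have e2 : (s + j + 1).choose (j + 1) = (s + (j + 1)).choose s := by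
      have : s + j + 1 = s + (j + 1) := by ring
      rw [this, ← Nat.choose_symm_add]
    rw [e1, e2] at h
    have h' : ((s + j + 1 : ℕ) : ℝ) * ((s + j).choose s : ℝ)
        = ((s + (j + 1)).choose s : ℝ) * ((j + 1 : ℕ) : ℝ) := by exact_mod_cast h
    push_cast at h'
    linarith
  have hc : (0 : ℝ) ≤ ((s + j).choose s : ℝ) := Nat.cast_nonneg _
  have hkey : ((s + (j + 1)).choose s : ℝ) ≤ (s + 1) * ((s + j).choose s : ℝ) := by
    have hj : (0 : ℝ) < (j : ℝ) + 1 := by positivity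
    have h2 : ((s + (j + 1)).choose s : ℝ) * (j + 1) ≤
        ((s + 1) * ((s + j).choose s : ℝ)) * (j + 1) := by
      rw [h1]
      have hsj : (0 : ℝ) ≤ (s : ℝ) * j := by positivity
      nlinarith
    exact le_of_mul_le_mul_right h2 hj
  have hpw : (0 : ℝ) ≤ (1 / (((s + 1 : ℕ) : ℝ) + 1)) ^ j := by positivity
  have e3 : (1 - 1 / (((s + 1 : ℕ) : ℝ) + 1)) = ((s : ℝ) + 1) * (1 / (((s + 1 : ℕ) : ℝ) + 1)) := by
    push_cast
    field_simp
    ring
  rw [e3, pow_succ]
  have hinv : (0 : ℝ) ≤ 1 / (((s + 1 : ℕ) : ℝ) + 1) := by positivity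
  have := mul_le_mul_of_nonneg_right hkey (mul_nonneg hpw hinv)
  nlinarith [this]

lemma T_nonneg (r j : ℕ) : 0 ≤ T (1 / ((r : ℝ) + 1)) r j := by
  unfold T
  positivity

lemma e_bounds (r : ℕ) (hr : 1 ≤ r) (j : ℕ) :
    (Even j → T (1 / ((r : ℝ) + 1)) r j ≤ e (1 / ((r : ℝ) + 1)) r (r + j)) ∧
    (Odd j → 0 ≤ e (1 / ((r : ℝ) + 1)) r (r + j)) := by
  have ha : (0 : ℝ) ≤ 1 - 1 / ((r : ℝ) + 1) := by
    have : (0 : ℝ) < (r : ℝ) + 1 := by positivity
    rw [sub_nonneg, div_le_one this]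
    have : (0 : ℝ) ≤ (r : ℝ) := Nat.cast_nonneg _
    linarith
  induction j with
  | zero =>
    refine ⟨fun _ => ?_, fun h => absurd h (by decide)⟩
    rw [add_zero, e_self]
    simp [T]
  | succ j ih =>
    have hrec := e_succ (1 / ((r : ℝ) + 1)) r (r + j) hr (by omega)
    have hexp : r + j + 1 - r = j + 1 := by omega
    have hch : (r + j).choose (r - 1) = (r - 1 + (j + 1)).choose (r - 1) := by
      congr 1
      omega
    rw [hexp, hch] at hrec
    rw [← add_assoc, hrec]
    constructor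
    · intro hev
      have hodd : Odd j := by
        rw [Nat.even_add_one, Nat.not_even_iff_odd] at hev
        exact hev
      have h1 := ih.2 hodd
      rw [hev.neg_pow]
      have h2 := mul_nonneg ha h1
      unfold T
      linarith
    · intro hodd
      have hev : Even j := by
        rw [Nat.odd_add_one, Nat.not_odd_iff_even] at hodd
        exact hodd
      have h1 := ih.1 hev
      rw [hodd.neg_pow]
      have h2 := mul_le_mul_of_nonneg_left h1 ha
      have h3 := T_succ r j hr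
      unfold T at h2 h3
      linarith

lemma e_nonneg (r : ℕ) (hr : 1 ≤ r) (n : ℕ) : 0 ≤ e (1 / ((r : ℝ) + 1)) r n := by
  rcases lt_or_ge n r with h | h
  · rw [e_lt _ _ _ h]
  · obtain ⟨j, rfl⟩ := Nat.exists_eq_add_of_le h
    rcases Nat.even_or_odd j with hj | hj
    · exact (T_nonneg r j).trans ((e_bounds r hr j).1 hj)
    · exact (e_bounds r hr j).2 hj

lemma iteratedDeriv_B (r n : ℕ) : iteratedDeriv n (B r) 0 = if r ≤ n then 1 else 0 := by
  have hB : B r = fun x => Real.exp x - ∑ k ∈ range r, x ^ k / (k.factorial : ℝ) := rfl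
  rw [hB, iteratedDeriv_fun_sub (by fun_prop) (by fun_prop)]
  rw [iteratedDeriv_fun_sum (fun i _ => by fun_prop)]
  have h1 : iteratedDeriv n (fun x : ℝ => Real.exp x) 0 = 1 := by
    have := congrFun (iteratedDeriv_exp_const_mul n 1) 0
    simpa using this
  rw [h1]
  have h2 : ∀ k ∈ range r, iteratedDeriv n (fun x : ℝ => x ^ k / (k.factorial : ℝ)) 0
      = if n = k then 1 else 0 := by
    intro k _
    rw [iteratedDeriv_div_const, iteratedDeriv_fun_pow_zero]
    split_ifs with h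
    · exact div_self (by positivity)
    · simp
  rw [Finset.sum_congr rfl h2, Finset.sum_ite_eq]
  by_cases h : r ≤ n
  · rw [if_neg (by rw [Finset.mem_range]; omega), if_pos h, sub_zero]
  · rw [if_pos (by rw [Finset.mem_range]; omega), if_neg h, sub_self]

lemma contDiff_B (r : ℕ) {m : WithTop ℕ∞} : ContDiff ℝ m (B r) := by
  have hB : B r = fun x => Real.exp x - ∑ k ∈ range r, x ^ k / (k.factorial : ℝ) := rfl
  rw [hB]
  fun_prop

lemma iteratedDeriv_G (r n : ℕ) :
    iteratedDeriv n (G r) 0 = e (1 / ((r : ℝ) + 1)) r n := by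
  have hG : G r = (fun x => Real.exp ((-(1 / ((r : ℝ) + 1))) * x)) * (B r) := by
    funext x
    simp only [G, Pi.mul_apply]
    congr 2
    ring
  rw [hG, iteratedDeriv_mul (by fun_prop) (contDiff_B r).contDiffAt]
  unfold e
  rw [← Finset.sum_range_reflect]
  refine Finset.sum_congr rfl fun k hk => ?_
  have hk' : k ≤ n := by
    have := Finset.mem_range.mp hk
    omega
  have e1 : n + 1 - 1 - k = n - k := by omega
  have e2 : n - (n - k) = k := by omega
  rw [e1, e2, iteratedDeriv_B, iteratedDeriv_exp_const_mul, Nat.choose_symm hk']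
  split_ifs with h
  · simp
  · simp

/-- **Theorem.** For every `r ≥ 1`, every Taylor coefficient `c_{r,n}` of
`G_r(x) = exp (-x/(r+1)) * B_r(x)` at `0` is non-negative. -/
theorem result : ∀ r : ℕ, 1 ≤ r → ∀ n : ℕ, 0 ≤ iteratedDeriv n (G r) 0 / (n.factorial : ℝ) := by
  intro r hr n
  rw [iteratedDeriv_G]
  exact div_nonneg (e_nonneg r hr n) (Nat.cast_nonneg _)

end Pool.Agent.Results.MP_cd30d4_co.NonnegCoeff
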